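import Mathlib

set_option autoImplicit false
set_option maxHeartbeats 800000

open MeasureTheory Complex Filter Polynomial
open scoped ComplexConjugate Matrix Topology

namespace Pool.Agent.H367FR

theorem fr_inf : Set.Infinite {ξ : ℂ | ‖ξ‖ = 1} := by
  have hne : ∀ n : ℕ, ((n : ℂ) - I) ≠ 0 := by
    intro n h
    have := congrArg Complex.im h
    simp at this
  refine Set.infinite_of_injective_forall_mem (f := fun n : ℕ => ((n : ℂ) + I) / ((n : ℂ) - I)) ?_ ?_
  · intro a b hab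
    have h1 := hne a
    have h2 := hne b
    simp only at hab
    rw [div_eq_div_iff h1 h2] at hab
    have := congrArg Complex.im hab
    simp at this
    have h3 : (a : ℝ) = b := by linarith
    exact_mod_cast h3
  · intro n
    simp only [Set.mem_ofPred_eq]
    have h1 := hne n
    have h2 : ‖(n : ℂ) + I‖ = ‖(n : ℂ) - I‖ := by
      have : (n : ℂ) - I = conj ((n : ℂ) + I) := by simp [sub_eq_add_neg]
      rw [this, RCLike.norm_conj]
    rw [norm_div, h2]
    exact div_self (norm_ne_zero_iff.mpr h1)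

theorem fr_reflect (M : ℕ) (f : Polynomial ℂ) (hf : f.natDegree ≤ M) (x : ℂ) (hx : x ≠ 0) :
    (reflect M f).eval x⁻¹ * x ^ M = f.eval x := by
  letI := invertibleOfNonzero hx
  have := eval₂_reflect_mul_pow (RingHom.id ℂ) x M f hf
  rw [invOf_eq_inv] at this
  simpa [Polynomial.eval₂_id] using this

theorem fr_mapeval (f : Polynomial ℂ) (x : ℂ) :
    (f.map (starRingEnd ℂ)).eval (conj x) = conj (f.eval x) := by
  rw [Polynomial.eval_map, Polynomial.eval₂_hom]

theorem fr_natdeg (f : Polynomial ℂ) : (f.map (starRingEnd ℂ)).natDegree = f.natDegree :=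
  Polynomial.natDegree_map_eq_of_injective (starRingEnd ℂ).injective f

/-- the reflected polynomial on the circle -/
theorem fr_circ (M : ℕ) (f : Polynomial ℂ) (hf : f.natDegree ≤ M) (ξ : ℂ) (hξ : ‖ξ‖ = 1) :
    (reflect M (f.map (starRingEnd ℂ))).eval ξ = ξ ^ M * conj (f.eval ξ) := by
  have h0 : ξ ≠ 0 := by intro h; rw [h, norm_zero] at hξ; exact zero_ne_one hξ
  have hc : conj ξ = ξ⁻¹ := by
    rw [Complex.inv_def, Complex.normSq_eq_norm_sq, hξ]; simp
  have h1 := fr_reflect M (f.map (starRingEnd ℂ)) (by rw [fr_natdeg]; exact hf) (ξ⁻¹) (inv_ne_zero h0)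
  rw [inv_inv] at h1
  rw [← hc, fr_mapeval, hc] at h1
  rw [← h1]
  have : ξ ^ M * ξ⁻¹ ^ M = 1 := by rw [← mul_pow, mul_inv_cancel₀ h0, one_pow]
  linear_combination (-(eval ξ (reflect M (map (starRingEnd ℂ) f)))) * this

theorem fr_recip (N : ℕ) (w : Polynomial ℂ) (hd : w.natDegree ≤ 2 * N)
    (h : ∀ ξ : ℂ, ‖ξ‖ = 1 → ∃ r : ℝ, 0 < r ∧ w.eval ξ = (r : ℂ) * ξ ^ N) :
    reflect (2 * N) (w.map (starRingEnd ℂ)) = w := by
  apply Polynomial.eq_of_infinite_eval_eq
  apply fr_inf.mono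
  intro ξ hξ
  simp only [Set.mem_ofPred_eq] at hξ ⊢
  rw [fr_circ _ _ hd ξ hξ]
  obtain ⟨r, hr, he⟩ := h ξ hξ
  have h0 : ξ ≠ 0 := by intro h; rw [h, norm_zero] at hξ; exact zero_ne_one hξ
  have hc : conj ξ = ξ⁻¹ := by
    rw [Complex.inv_def, Complex.normSq_eq_norm_sq, hξ]; simp
  rw [he, map_mul, map_pow, hc, Complex.conj_ofReal]
  have : ξ ^ N * ξ⁻¹ ^ N = 1 := by rw [← mul_pow, mul_inv_cancel₀ h0, one_pow]
  rw [two_mul, pow_add]
  linear_combination ((r : ℂ) * ξ ^ N) * this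

theorem fr_main : ∀ (N : ℕ) (w : Polynomial ℂ), w.natDegree ≤ 2 * N →
  (∀ ξ : ℂ, ‖ξ‖ = 1 → ∃ r : ℝ, 0 < r ∧ w.eval ξ = (r : ℂ) * ξ ^ N) →
  ∃ Q : Polynomial ℂ, Q.natDegree ≤ N ∧ ∀ ξ : ℂ, ‖ξ‖ = 1 →
    w.eval ξ = ((‖Q.eval ξ‖ ^ 2 : ℝ) : ℂ) * ξ ^ N := by
  intro N
  induction N with
  | zero =>
    intro w hd h
    obtain ⟨c, rfl⟩ : ∃ c, w = C c := ⟨w.coeff 0, Polynomial.eq_C_of_natDegree_le_zero (by simpa using hd)⟩
    obtain ⟨r, hr, he⟩ := h 1 (by simp)
    simp at he
    refine ⟨C ((Real.sqrt r : ℝ) : ℂ), by simp, ?_⟩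
    intro ξ _
    simp only [eval_C, pow_zero, mul_one]
    rw [he, Complex.norm_real, Real.norm_eq_abs, sq_abs, Real.sq_sqrt hr.le]
  | succ N ih =>
    intro w hd h
    have hrec := fr_recip (N + 1) w hd h
    have hw0 : w ≠ 0 := by
      intro h0
      obtain ⟨r, hr, he⟩ := h 1 (by simp)
      rw [h0] at he
      simp at he
      exact hr.ne' (by exact_mod_cast he.symm)
    have hcoef : w.coeff 0 = conj (w.coeff (2 * (N + 1))) := by
      conv_lhs => rw [← hrec]
      rw [coeff_reflect, coeff_map]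
      congr 2
    by_cases h00 : w.coeff 0 = 0
    · -- divide by X
      obtain ⟨w1, rfl⟩ := Polynomial.X_dvd_iff.mpr h00
      have htop : (Polynomial.X * w1).coeff (2 * (N + 1)) = 0 := by
        rw [h00] at hcoef
        have := congrArg conj hcoef
        simpa using this.symm
      have hw1 : w1 ≠ 0 := by rintro rfl; simp at hw0
      have hdeg : w1.natDegree ≤ 2 * N := by
        have h1 : (Polynomial.X * w1).natDegree = w1.natDegree + 1 := by
          rw [Polynomial.natDegree_X_mul hw1]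
        by_contra hcon
        push Not at hcon
        have h2 : (Polynomial.X * w1).natDegree = 2 * (N + 1) := by omega
        rw [← h2] at htop
        exact hw0 (Polynomial.leadingCoeff_eq_zero.mp htop)
      obtain ⟨Q, hQ1, hQ2⟩ := ih w1 hdeg (by
        intro ξ hξ
        obtain ⟨r, hr, he⟩ := h ξ hξ
        have h0 : ξ ≠ 0 := by intro h; rw [h, norm_zero] at hξ; exact zero_ne_one hξ
        refine ⟨r, hr, ?_⟩
        rw [eval_mul, eval_X, pow_succ] at he
        have : ξ * eval ξ w1 = ξ * ((r : ℂ) * ξ ^ N) := by rw [he]; ring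
        exact mul_left_cancel₀ h0 this)
      refine ⟨Q, by omega, ?_⟩
      intro ξ hξ
      rw [eval_mul, eval_X, hQ2 ξ hξ]; ring
    · have htop : w.coeff (2 * (N + 1)) ≠ 0 := by
        intro h1; rw [h1] at hcoef; simp at hcoef; exact h00 hcoef
      have hnd : w.natDegree = 2 * (N + 1) :=
        le_antisymm hd (Polynomial.le_natDegree_of_ne_zero htop)
      obtain ⟨a, ha⟩ := Complex.exists_root (f := w) (by
        rw [Polynomial.degree_eq_natDegree hw0, hnd]; exact_mod_cast (by omega : 0 < 2 * (N + 1)))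
      have ha0 : a ≠ 0 := by
        rintro rfl
        apply h00
        rw [Polynomial.coeff_zero_eq_eval_zero]; exact ha
      have ha1 : ‖a‖ ≠ 1 := by
        intro h1
        obtain ⟨r, hr, he⟩ := h a h1
        rw [ha.eq_zero] at he
        have := mul_ne_zero (Complex.ofReal_ne_zero.mpr hr.ne') (pow_ne_zero (N + 1) ha0)
        exact this he.symm
      set b : ℂ := (conj a)⁻¹ with hb
      have hca0 : conj a ≠ 0 := by simpa using ha0
      have hbroot : w.IsRoot b := by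
        have h1 := fr_reflect (2 * (N + 1)) (w.map (starRingEnd ℂ)) (by rw [fr_natdeg]; exact hd)
          (conj a) hca0
        rw [fr_mapeval, ha.eq_zero, map_zero, hrec] at h1
        have h2 : (conj a) ^ (2 * (N + 1)) ≠ 0 := pow_ne_zero _ hca0
        rcases mul_eq_zero.mp h1 with h3 | h3
        · exact h3
        · exact absurd h3 h2
      have hab : a ≠ b := by
        intro h1
        apply ha1
        have h2 : a * conj a = 1 := by
          have h3 : a * conj a = b * conj a := by rw [← h1]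
          rw [h3, hb]; exact inv_mul_cancel₀ hca0
        rw [Complex.mul_conj, Complex.normSq_eq_norm_sq] at h2
        have h3 : ‖a‖ ^ 2 = 1 := by exact_mod_cast h2
        nlinarith [norm_nonneg a]
      have hcop : IsCoprime (Polynomial.X - C a) (Polynomial.X - C b) :=
        Polynomial.isCoprime_X_sub_C_of_isUnit_sub (sub_ne_zero.mpr hab).isUnit
      obtain ⟨w1, hw1⟩ := hcop.mul_dvd (Polynomial.dvd_iff_isRoot.mpr ha)
        (Polynomial.dvd_iff_isRoot.mpr hbroot)
      have hw10 : w1 ≠ 0 := by rintro rfl; simp at hw1; exact hw0 hw1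
      have hdeg : w1.natDegree ≤ 2 * N := by
        have h1 : w.natDegree = 1 + 1 + w1.natDegree := by
          rw [hw1, Polynomial.natDegree_mul (mul_ne_zero (X_sub_C_ne_zero a) (X_sub_C_ne_zero b)) hw10,
            Polynomial.natDegree_mul (X_sub_C_ne_zero a) (X_sub_C_ne_zero b), natDegree_X_sub_C,
            natDegree_X_sub_C]
        omega
      -- the key identity on the circle
      have key : ∀ ξ : ℂ, ‖ξ‖ = 1 → (ξ - a) * (ξ - b) * (-(conj a)) =
          ξ * ((‖ξ - a‖ ^ 2 : ℝ) : ℂ) := by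
        intro ξ hξ
        have hxx : ξ * conj ξ = 1 := by
          rw [Complex.mul_conj, Complex.normSq_eq_norm_sq, hξ]; simp
        have h1 : (((‖ξ - a‖ ^ 2 : ℝ)) : ℂ) = (ξ - a) * (conj ξ - conj a) := by
          rw [← map_sub, Complex.mul_conj, Complex.normSq_eq_norm_sq]
        rw [h1, hb]
        have h2 : (conj a)⁻¹ * conj a = 1 := inv_mul_cancel₀ hca0
        linear_combination (ξ - a) * h2 - (ξ - a) * hxx
      have hne : ∀ ξ : ℂ, ‖ξ‖ = 1 → 0 < ‖ξ - a‖ ^ 2 := by
        intro ξ hξ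
        have : ξ - a ≠ 0 := by
          intro h1; apply ha1; rw [← sub_eq_zero.mp h1]; exact hξ
        positivity
      obtain ⟨Q, hQ1, hQ2⟩ := ih (C (-(conj a)⁻¹) * w1)
        (le_trans (Polynomial.natDegree_C_mul_le _ _) hdeg) (by
        intro ξ hξ
        obtain ⟨r, hr, he⟩ := h ξ hξ
        have h0 : ξ ≠ 0 := by intro h; rw [h, norm_zero] at hξ; exact zero_ne_one hξ
        refine ⟨r / ‖ξ - a‖ ^ 2, div_pos hr (hne ξ hξ), ?_⟩
        rw [hw1, eval_mul, eval_mul, eval_sub, eval_sub, eval_X, eval_C, eval_C] at he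
        rw [eval_mul, eval_C]
        have hk := key ξ hξ
        have hn : (((‖ξ - a‖ ^ 2 : ℝ)) : ℂ) ≠ 0 := by exact_mod_cast (hne ξ hξ).ne'
        rw [Complex.ofReal_div]
        rw [div_mul_eq_mul_div, eq_div_iff hn]
        apply mul_left_cancel₀ h0
        have h3 : (conj a)⁻¹ * conj a = 1 := inv_mul_cancel₀ hca0
        calc ξ * (-(conj a)⁻¹ * eval ξ w1 * ((‖ξ - a‖ ^ 2 : ℝ) : ℂ))
            = -(conj a)⁻¹ * eval ξ w1 * (ξ * ((‖ξ - a‖ ^ 2 : ℝ) : ℂ)) := by ring
          _ = ((conj a)⁻¹ * conj a) * ((ξ - a) * (ξ - b) * eval ξ w1) := by rw [← hk]; ring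
          _ = (r : ℂ) * ξ ^ (N + 1) := by rw [h3, he, one_mul]
          _ = ξ * ((r : ℂ) * ξ ^ N) := by ring)
      refine ⟨(Polynomial.X - C a) * Q, ?_, ?_⟩
      · refine le_trans (Polynomial.natDegree_mul_le) ?_
        rw [natDegree_X_sub_C]; omega
      · intro ξ hξ
        have h1 := hQ2 ξ hξ
        rw [eval_mul, eval_C] at h1
        have hk := key ξ hξ
        have h3 : (conj a)⁻¹ * conj a = 1 := inv_mul_cancel₀ hca0
        rw [hw1, eval_mul, eval_mul, eval_sub, eval_sub, eval_X, eval_C, eval_C, eval_mul, eval_sub,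
          eval_X, eval_C, norm_mul, mul_pow]
        calc (ξ - a) * (ξ - b) * eval ξ w1
            = ((conj a)⁻¹ * conj a) * ((ξ - a) * (ξ - b) * eval ξ w1) := by rw [h3, one_mul]
          _ = ((ξ - a) * (ξ - b) * (-(conj a))) * (-(conj a)⁻¹ * eval ξ w1) := by ring
          _ = (ξ * ((‖ξ - a‖ ^ 2 : ℝ) : ℂ)) * (((‖eval ξ Q‖ ^ 2 : ℝ) : ℂ) * ξ ^ N) := by rw [hk, h1]
          _ = ((‖ξ - a‖ ^ 2 * ‖eval ξ Q‖ ^ 2 : ℝ) : ℂ) * ξ ^ (N + 1) := by push_cast; ring


end Pool.Agent.H367FR
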