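import Pool.Agent.H460U.TR.Defs

/-! 3x3 polynomial inner loops close to a scalar (helper367), for MP_03b738_an (Arveson). -/

set_option autoImplicit false

open MeasureTheory Complex Filter Polynomial
open scoped ComplexConjugate Matrix Topology

namespace Pool.Agent.H367AL

open Pool.Agent.H460U

noncomputable section

abbrev M3 := Matrix (Fin 3) (Fin 3) ℂ

/-- the value of a polynomial matrix -/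
def ev (p : Fin 3 → Fin 3 → Polynomial ℂ) (ξ : ℂ) : M3 := Matrix.of fun i j => (p i j).eval ξ

/-- principal cube root -/
def cr3 (ξ : ℂ) : ℂ := ξ ^ ((1 / 3 : ℝ) : ℂ)

/-- polynomial inner loops with determinant `ξ^q`, `3 ∤ q`, close to a scalar -/
def S_LOOP : Prop := ∀ ε : ℝ, 0 < ε → ∃ (q : ℕ) (p : Fin 3 → Fin 3 → Polynomial ℂ) (t : X → ℂ),
  ¬ 3 ∣ q ∧ (∀ ξ : ℂ, ‖ξ‖ = 1 → (ev p ξ)ᴴ * ev p ξ = 1) ∧ (∀ ξ : ℂ, (ev p ξ).det = ξ ^ q) ∧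
  Uni t ∧ (∀ᵐ x ∂mu, t x ^ 3 = bl x ^ q) ∧
  ∫ x : X, ∑ i : Fin 3, ∑ j : Fin 3, ‖(t x)⁻¹ * ev p (bl x) i j - (1 : M3) i j‖ ^ 2 ∂mu ≤ ε

/-- Fejer - Riesz, strictly positive case -/
def S_FR : Prop := ∀ (N : ℕ) (w : Polynomial ℂ), w.natDegree ≤ 2 * N →
  (∀ ξ : ℂ, ‖ξ‖ = 1 → ∃ r : ℝ, 0 < r ∧ w.eval ξ = (r : ℂ) * ξ ^ N) →
  ∃ Q : Polynomial ℂ, Q.natDegree ≤ N ∧ ∀ ξ : ℂ, ‖ξ‖ = 1 →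
    w.eval ξ = ((‖Q.eval ξ‖ ^ 2 : ℝ) : ℂ) * ξ ^ N

/-- Laurent polynomials of modulus `< 1` approximate `F ∘ bl`; `F` continuous and unimodular off `-1` -/
def S_APX : Prop := ∀ (F : ℂ → ℂ), (∀ ξ : ℂ, ‖ξ‖ = 1 → ξ ≠ -1 → ContinuousAt F ξ) →
  (∀ ξ : ℂ, ‖ξ‖ = 1 → ‖F ξ‖ = 1) → ∀ ε : ℝ, 0 < ε →
  ∃ (N : ℕ) (p : Polynomial ℂ), p.natDegree ≤ 2 * N ∧ (∀ ξ : ℂ, ‖ξ‖ = 1 → ‖p.eval ξ‖ < 1) ∧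
    ∫ x : X, ‖p.eval (bl x) - bl x ^ N * F (bl x)‖ ∂mu ≤ ε

/-- completion: `p` with `‖p‖ < 1` on the circle has `Q` with `‖p‖² + ‖Q‖² = 1` there, and the
reflected polynomials -/
def S_CPL : Prop := ∀ (N : ℕ) (p : Polynomial ℂ), p.natDegree ≤ 2 * N →
  (∀ ξ : ℂ, ‖ξ‖ = 1 → ‖p.eval ξ‖ < 1) →
  ∃ Q p' Q' : Polynomial ℂ, (∀ ξ : ℂ, ‖ξ‖ = 1 → ‖p.eval ξ‖ ^ 2 + ‖Q.eval ξ‖ ^ 2 = 1) ∧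
    (∀ ξ : ℂ, ‖ξ‖ = 1 → p'.eval ξ = ξ ^ (2 * N) * conj (p.eval ξ)) ∧
    (∀ ξ : ℂ, ‖ξ‖ = 1 → Q'.eval ξ = ξ ^ (2 * N) * conj (Q.eval ξ)) ∧
    (∀ ξ : ℂ, p.eval ξ * p'.eval ξ + Q.eval ξ * Q'.eval ξ = ξ ^ (2 * N))

end

end Pool.Agent.H367AL
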